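import Mathlib

/-!
A finite commutative associative ring (hence alternative and Jordan) with no finite basis
of quasi-identities.
-/

namespace Pool.Agent.Results.MP_db5ef1_al.NoFiniteQuasiIdentityBasis

/-- Terms of the ring signature `{+, -, 0, *}` in the variables `x_0, x_1, x_2, ...`. -/
inductive RingTerm : Type
  | var : ℕ → RingTerm
  | zero : RingTerm
  | add : RingTerm → RingTerm → RingTerm
  | neg : RingTerm → RingTerm
  | mul : RingTerm → RingTerm → RingTerm

/-- The value of a term in a (not necessarily associative) ring under an assignment. -/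
def RingTerm.eval {A : Type} [NonUnitalNonAssocRing A] (v : ℕ → A) : RingTerm → A
  | .var i => v i
  | .zero => 0
  | .add s t => s.eval v + t.eval v
  | .neg s => - s.eval v
  | .mul s t => s.eval v * t.eval v

/-- A quasi-identity `s_1 = t_1 ∧ ... ∧ s_n = t_n → s = t` (with `n ≥ 0`): a finite list of
premises and a conclusion. -/
structure QuasiIdentity where
  hyps : List (RingTerm × RingTerm)
  concl : RingTerm × RingTerm

/-- A quasi-identity is true in the ring `A` if it holds for all values of the variables. -/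
def QuasiIdentity.HoldsIn (q : QuasiIdentity) (A : Type) [NonUnitalNonAssocRing A] : Prop :=
  ∀ v : ℕ → A, (∀ e ∈ q.hyps, e.1.eval v = e.2.eval v) → q.concl.1.eval v = q.concl.2.eval v

/-- `S` is a basis of quasi-identities of `A`: all members of `S` are true in `A`, and every
quasi-identity true in `A` holds in every ring in which all members of `S` are true. -/
def IsQuasiIdentityBasis (S : Set QuasiIdentity) (A : Type) [NonUnitalNonAssocRing A] : Prop :=
  (∀ q ∈ S, q.HoldsIn A) ∧
    ∀ q : QuasiIdentity, q.HoldsIn A →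
      ∀ (B : Type) [NonUnitalNonAssocRing B], (∀ s ∈ S, s.HoldsIn B) → q.HoldsIn B

/-- The ring `A` has a finite basis of quasi-identities. -/
def HasFiniteQuasiIdentityBasis (A : Type) [NonUnitalNonAssocRing A] : Prop :=
  ∃ S : Set QuasiIdentity, S.Finite ∧ IsQuasiIdentityBasis S A

/-- `A` is an alternative ring. -/
def IsAlternativeRing (A : Type) [NonUnitalNonAssocRing A] : Prop :=
  (∀ x y : A, (x * x) * y = x * (x * y)) ∧ (∀ x y : A, (y * x) * x = y * (x * x))

/-- `A` is a Jordan ring. -/
def IsJordanRing (A : Type) [NonUnitalNonAssocRing A] : Prop :=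
  (∀ x y : A, x * y = y * x) ∧ (∀ x y : A, ((x * x) * y) * x = (x * x) * (y * x))

/-! ### Variables of a term -/

/-- A strict upper bound for the indices of the variables of a term. -/
def RingTerm.bound : RingTerm → ℕ
  | .var i => i + 1
  | .zero => 0
  | .add s t => max s.bound t.bound
  | .neg s => s.bound
  | .mul s t => max s.bound t.bound

lemma eval_congr {A : Type} [NonUnitalNonAssocRing A] {v w : ℕ → A} (t : RingTerm) {k : ℕ}
    (hk : t.bound ≤ k) (h : ∀ i < k, v i = w i) : t.eval v = t.eval w := by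
  induction t with
  | var i => exact h i (by simpa [RingTerm.bound] using hk)
  | zero => rfl
  | add s t hs ht =>
    simp only [RingTerm.bound, max_le_iff] at hk
    simp only [RingTerm.eval, hs hk.1, ht hk.2]
  | neg s hs =>
    simp only [RingTerm.bound] at hk
    simp only [RingTerm.eval, hs hk]
  | mul s t hs ht =>
    simp only [RingTerm.bound, max_le_iff] at hk
    simp only [RingTerm.eval, hs hk.1, ht hk.2]

lemma eval_mem {B : Type} [NonUnitalNonAssocRing B] (S : NonUnitalSubring B) {v : ℕ → B}
    (h : ∀ i, v i ∈ S) (t : RingTerm) : t.eval v ∈ S := by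
  induction t with
  | var i => exact h i
  | zero => exact S.zero_mem
  | add s t hs ht => exact S.add_mem hs ht
  | neg s hs => exact S.neg_mem hs
  | mul s t hs ht => exact S.mul_mem hs ht

lemma eval_hom {A B : Type} [NonUnitalNonAssocRing A] [NonUnitalNonAssocRing B]
    (φ : B →ₙ+* A) (v : ℕ → B) (t : RingTerm) : φ (t.eval v) = t.eval (fun i => φ (v i)) := by
  induction t with
  | var i => rfl
  | zero => simp [RingTerm.eval]
  | add s t hs ht => simp [RingTerm.eval, hs, ht]
  | neg s hs => simp [RingTerm.eval, hs]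
  | mul s t hs ht => simp [RingTerm.eval, hs, ht]

lemma eval_subring {B : Type} [NonUnitalNonAssocRing B] (S : NonUnitalSubring B) (v : ℕ → S)
    (t : RingTerm) : ((t.eval v : S) : B) = t.eval (fun i => (v i : B)) := by
  induction t with
  | var i => rfl
  | zero => rfl
  | add s t hs ht => simp [RingTerm.eval, hs, ht]
  | neg s hs => simp [RingTerm.eval, hs]
  | mul s t hs ht => simp [RingTerm.eval, hs, ht]

/-- A strict upper bound for the indices of the variables of a quasi-identity. -/
lemma exists_bound (q : QuasiIdentity) :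
    ∃ k, (∀ e ∈ q.hyps, e.1.bound ≤ k ∧ e.2.bound ≤ k) ∧ q.concl.1.bound ≤ k ∧
      q.concl.2.bound ≤ k := by
  have h1 : ∀ l : List (RingTerm × RingTerm), ∃ k, ∀ e ∈ l, e.1.bound ≤ k ∧ e.2.bound ≤ k := by
    intro l
    induction l with
    | nil => exact ⟨0, by simp⟩
    | cons a l ih =>
      obtain ⟨k, hk⟩ := ih
      refine ⟨max k (max a.1.bound a.2.bound), ?_⟩
      intro e he
      rcases List.mem_cons.1 he with rfl | he
      · exact ⟨le_max_of_le_right (le_max_left _ _), le_max_of_le_right (le_max_right _ _)⟩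
      · exact ⟨le_max_of_le_left (hk e he).1, le_max_of_le_left (hk e he).2⟩
  obtain ⟨k, hk⟩ := h1 q.hyps
  refine ⟨max k (max q.concl.1.bound q.concl.2.bound), ?_, ?_, ?_⟩
  · intro e he
    exact ⟨le_max_of_le_left (hk e he).1, le_max_of_le_left (hk e he).2⟩
  · exact le_max_of_le_right (le_max_left _ _)
  · exact le_max_of_le_right (le_max_right _ _)

lemma exists_bound_set {S : Set QuasiIdentity} (hS : S.Finite) :
    ∃ k, ∀ q ∈ S, (∀ e ∈ q.hyps, e.1.bound ≤ k ∧ e.2.bound ≤ k) ∧ q.concl.1.bound ≤ k ∧
      q.concl.2.bound ≤ k := by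
  induction S, hS using Set.Finite.induction_on with
  | empty => exact ⟨0, by simp⟩
  | @insert q S _ _ ih =>
    obtain ⟨k, hk⟩ := ih
    obtain ⟨l, hl⟩ := exists_bound q
    refine ⟨max k l, ?_⟩
    intro r hr
    rcases Set.mem_insert_iff.1 hr with rfl | hr
    · refine ⟨fun e he => ⟨le_max_of_le_right (hl.1 e he).1, le_max_of_le_right (hl.1 e he).2⟩,
        le_max_of_le_right hl.2.1, le_max_of_le_right hl.2.2⟩
    · have := hk r hr
      refine ⟨fun e he => ⟨le_max_of_le_left (this.1 e he).1, le_max_of_le_left (this.1 e he).2⟩,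
        le_max_of_le_left this.2.1, le_max_of_le_left this.2.2⟩

/-- Criterion: if every assignment of `k` variables in `B` lies in a subring whose nonzero
elements are separated from zero by homomorphisms to `A`, then every quasi-identity in `k`
variables true in `A` is true in `B`. -/
lemma holdsIn_of_separated {A B : Type} [NonUnitalNonAssocRing A] [NonUnitalNonAssocRing B]
    {k : ℕ}
    (h : ∀ v : ℕ → B, (∀ i, k ≤ i → v i = 0) → ∃ S : NonUnitalSubring B, (∀ i, v i ∈ S) ∧
      ∀ b : S, b ≠ 0 → ∃ φ : S →ₙ+* A, φ b ≠ 0)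
    (q : QuasiIdentity)
    (hq : (∀ e ∈ q.hyps, e.1.bound ≤ k ∧ e.2.bound ≤ k) ∧ q.concl.1.bound ≤ k ∧
      q.concl.2.bound ≤ k)
    (hA : q.HoldsIn A) : q.HoldsIn B := by
  intro v hv
  set w : ℕ → B := fun i => if i < k then v i else 0 with hw
  have hvw : ∀ i < k, v i = w i := fun i hi => by simp [hw, hi]
  obtain ⟨S, hS, hsep⟩ := h w (fun i hi => by simp [hw, not_lt.2 hi])
  rw [eval_congr _ hq.2.1 hvw, eval_congr _ hq.2.2 hvw]
  by_contra hne
  let w' : ℕ → S := fun i => ⟨w i, hS i⟩
  have hww : ∀ t : RingTerm, ((t.eval w' : S) : B) = t.eval w := fun t => eval_subring S w' t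
  have hne' : q.concl.1.eval w' - q.concl.2.eval w' ≠ 0 := by
    intro h0
    apply hne
    have := congrArg (Subtype.val) (sub_eq_zero.1 h0)
    rwa [hww, hww] at this
  obtain ⟨φ, hφ⟩ := hsep _ hne'
  apply hφ
  rw [map_sub, sub_eq_zero, eval_hom, eval_hom]
  apply hA
  intro e he
  rw [← eval_hom, ← eval_hom]
  congr 1
  apply Subtype.ext
  rw [hww, hww, ← eval_congr _ (hq.1 e he).1 hvw, ← eval_congr _ (hq.1 e he).2 hvw]
  exact hv e he

/-! ### Rings with `xyz = 0` from biadditive maps -/

/-- The ring `V × Z` with product `(v, z) * (v', z') = (0, m v v')`. -/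
def NilTwo {V Z : Type} [AddCommGroup V] [AddCommGroup Z] (_m : V →+ V →+ Z) : Type := V × Z

section NilTwo

variable {V Z : Type} [AddCommGroup V] [AddCommGroup Z] (m : V →+ V →+ Z)

instance : AddCommGroup (NilTwo m) := inferInstanceAs (AddCommGroup (V × Z))

instance : NonUnitalNonAssocRing (NilTwo m) :=
  { (inferInstance : AddCommGroup (NilTwo m)) with
    mul := fun a b => ((0 : V), m a.1 b.1)
    left_distrib := fun a b c => by
      refine Prod.ext ?_ ?_
      · change (0 : V) = 0 + 0
        simp
      · change m a.1 (b.1 + c.1) = m a.1 b.1 + m a.1 c.1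
        simp
    right_distrib := fun a b c => by
      refine Prod.ext ?_ ?_
      · change (0 : V) = 0 + 0
        simp
      · change m (a.1 + b.1) c.1 = m a.1 c.1 + m b.1 c.1
        simp
    zero_mul := fun a => by
      refine Prod.ext ?_ ?_
      · rfl
      · change m 0 a.1 = 0
        simp
    mul_zero := fun a => by
      refine Prod.ext ?_ ?_
      · rfl
      · change m a.1 0 = 0
        simp }

variable {m}

@[simp] lemma nil_add_fst (a b : NilTwo m) : (a + b).1 = a.1 + b.1 := rfl
@[simp] lemma nil_add_snd (a b : NilTwo m) : (a + b).2 = a.2 + b.2 := rfl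
@[simp] lemma nil_zero_fst : (0 : NilTwo m).1 = 0 := rfl
@[simp] lemma nil_zero_snd : (0 : NilTwo m).2 = 0 := rfl
@[simp] lemma nil_neg_fst (a : NilTwo m) : (-a).1 = -a.1 := rfl
@[simp] lemma nil_neg_snd (a : NilTwo m) : (-a).2 = -a.2 := rfl
@[simp] lemma nil_mul_fst (a b : NilTwo m) : (a * b).1 = 0 := rfl
@[simp] lemma nil_mul_snd (a b : NilTwo m) : (a * b).2 = m a.1 b.1 := rfl

lemma nil_ext {a b : NilTwo m} (h1 : a.1 = b.1) (h2 : a.2 = b.2) : a = b := Prod.ext h1 h2

variable (m) in
/-- The element `(v, z)` of `NilTwo m`. -/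
def nmk (v : V) (z : Z) : NilTwo m := (v, z)

@[simp] lemma nmk_fst (v : V) (z : Z) : (nmk m v z).1 = v := rfl
@[simp] lemma nmk_snd (v : V) (z : Z) : (nmk m v z).2 = z := rfl

lemma nmk_add_left (v v' : V) : nmk m (v + v') 0 = nmk m v 0 + nmk m v' 0 :=
  nil_ext rfl (add_zero (0 : Z)).symm

lemma nmk_add_right (z z' : Z) : nmk m 0 (z + z') = nmk m 0 z + nmk m 0 z' :=
  nil_ext (add_zero (0 : V)).symm rfl

lemma nmk_mul (v v' : V) : nmk m 0 (m v v') = nmk m v 0 * nmk m v' 0 := rfl

/-- The subring of elements whose first component lies in a subgroup. -/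
def subU (U : AddSubgroup V) : NonUnitalSubring (NilTwo m) where
  carrier := {a | a.1 ∈ U}
  add_mem' := fun ha hb => U.add_mem ha hb
  zero_mem' := U.zero_mem
  neg_mem' := fun ha => U.neg_mem ha
  mul_mem' := fun _ _ => U.zero_mem

end NilTwo

/-- The four element ring `x F_2[x] / (x^3)`: pairs `(a, b)` standing for `a x + b x^2`, with
product `(a, b) * (c, d) = (0, a c)`. -/
abbrev R4 : Type := NilTwo (AddMonoidHom.mul : ZMod 2 →+ ZMod 2 →+ ZMod 2)


/-! ### Quadratic forms `Tr (c z^3)` -/

section Field

variable (K : Type) [Field K] [Finite K] [Algebra (ZMod 2) K]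

/-- Linear functionals on `K`. -/
abbrev Lin : Type := K →ₗ[ZMod 2] ZMod 2

/-- Functions `K → F_2`. -/
abbrev Fn : Type := K → ZMod 2

/-- The `F_2`-linear map `z ↦ z ^ 2`. -/
noncomputable def sq : K →ₗ[ZMod 2] K := (FiniteField.frobeniusAlgHom (ZMod 2) K).toLinearMap

lemma sq_apply (z : K) : sq K z = z ^ 2 := by
  simp [sq, FiniteField.frobeniusAlgHom, ZMod.card]

lemma sq_surj : Function.Surjective (fun z : K => z ^ 2) := by
  have h : Function.Injective (FiniteField.frobeniusAlgHom (ZMod 2) K) :=
    (FiniteField.frobeniusAlgHom (ZMod 2) K).toRingHom.injective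
  have h2 := Finite.surjective_of_injective h
  intro y
  obtain ⟨z, hz⟩ := h2 y
  refine ⟨z, ?_⟩
  have := sq_apply K z
  simp only [sq, AlgHom.toLinearMap_apply] at this
  rw [hz] at this
  exact this.symm

lemma two_zero : (2 : K) = 0 := by
  calc (2 : K) = algebraMap (ZMod 2) K 2 := (map_ofNat _ 2).symm
    _ = algebraMap (ZMod 2) K 0 := congrArg _ (by decide)
    _ = 0 := map_zero _

lemma tr_sq (z : K) : Algebra.trace (ZMod 2) K (z ^ 2) = Algebra.trace (ZMod 2) K z := by
  have : FiniteDimensional (ZMod 2) K := Module.Finite.of_finite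
  have := Algebra.trace_eq_of_algEquiv (A := ZMod 2)
    (FiniteField.frobeniusAlgEquivOfAlgebraic (ZMod 2) K) z
  rw [← this]
  congr 1

lemma tr_nondeg {u : K} (h : ∀ y : K, Algebra.trace (ZMod 2) K (y * u) = 0) : u = 0 := by
  have : FiniteDimensional (ZMod 2) K := Module.Finite.of_finite
  have := (traceForm_nondegenerate (ZMod 2) K)
  apply this.2
  intro y
  simpa [Algebra.traceForm_apply] using h y

/-- The quadratic form `z ↦ Tr (c z^3)`, linear in `c`. -/
noncomputable def cub : K →ₗ[ZMod 2] Fn K where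
  toFun c := fun z => Algebra.trace (ZMod 2) K (c * z ^ 3)
  map_add' a b := by
    funext z
    simp [add_mul]
  map_smul' a b := by
    funext z
    simp

/-- The product of two linear functionals, as a function. -/
def prod : Lin K →+ Lin K →+ Fn K :=
  AddMonoidHom.mk' (fun f => AddMonoidHom.mk' (fun g => fun z => f z * g z) (by
    intro g g'
    funext z
    simp [mul_add])) (by
    intro f f'
    ext g z
    simp [add_mul])

@[simp] lemma prod_apply (f g : Lin K) (z : K) : prod K f g z = f z * g z := rfl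

/-- The space of all forms `Tr (c z^3)`. -/
noncomputable def Q : Submodule (ZMod 2) (Fn K) := LinearMap.range (cub K)

/-- Multiplication of linear functionals modulo `Q`. -/
noncomputable def mulQ : Lin K →+ Lin K →+ (Fn K ⧸ Q K) :=
  AddMonoidHom.mk' (fun f => (Q K).mkQ.toAddMonoidHom.comp (prod K f)) (by
    intro f f'
    ext g
    simp)

lemma mulQ_apply (f g : Lin K) : mulQ K f g = (Q K).mkQ (prod K f g) := rfl

/-- The obstruction ring. -/
abbrev Obs : Type := NilTwo (mulQ K)

variable {K}

/-- The radical of the polar form of `Tr (c z^3)` has at most four elements. -/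
lemma radical_card {c : K} (hc : c ≠ 0) (s : Finset K)
    (hs : ∀ w ∈ s, ∀ z, Algebra.trace (ZMod 2) K (c * (z ^ 2 * w + z * w ^ 2)) = 0) :
    s.card ≤ 4 := by
  classical
  have key : ∀ w ∈ s, c * w + c ^ 2 * w ^ 4 = 0 := by
    intro w hw
    apply tr_nondeg K
    intro y
    obtain ⟨z, rfl⟩ := sq_surj K y
    have h := hs w hw z
    rw [mul_add, map_add] at h
    have h2 : Algebra.trace (ZMod 2) K (c * (z * w ^ 2)) =
        Algebra.trace (ZMod 2) K (z ^ 2 * (c ^ 2 * w ^ 4)) := by
      rw [← tr_sq K (c * (z * w ^ 2))]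
      congr 1
      ring
    rw [h2] at h
    change Algebra.trace (ZMod 2) K (z ^ 2 * (c * w + c ^ 2 * w ^ 4)) = 0
    rw [mul_add, map_add, ← h]
    congr 2
    ring
  let P : Polynomial K := Polynomial.C (c ^ 2) * Polynomial.X ^ 4 + Polynomial.C c * Polynomial.X
  have hP : P.natDegree = 4 := by
    have hc2 : c ^ 2 ≠ 0 := pow_ne_zero 2 hc
    simp only [P]
    compute_degree!
  have hP0 : P ≠ 0 := by
    intro h
    rw [h] at hP
    simp at hP
  have hsub : s ⊆ P.roots.toFinset := by
    intro w hw
    rw [Multiset.mem_toFinset, Polynomial.mem_roots hP0, Polynomial.IsRoot.def]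
    simp only [P, Polynomial.eval_add, Polynomial.eval_mul, Polynomial.eval_C,
      Polynomial.eval_pow, Polynomial.eval_X]
    rw [add_comm]
    exact key w hw
  calc s.card ≤ P.roots.toFinset.card := Finset.card_le_card hsub
    _ ≤ Multiset.card P.roots := Multiset.toFinset_card_le _
    _ ≤ P.natDegree := Polynomial.card_roots' P
    _ = 4 := hP

/-- The space spanned by the products of pairs of functionals from `U`. -/
def sym2 (U : AddSubgroup (Lin K)) : Submodule (ZMod 2) (Fn K) :=
  Submodule.span (ZMod 2) {h | ∃ f ∈ U, ∃ g ∈ U, h = prod K f g}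

lemma sym2_periodic (U : AddSubgroup (Lin K)) {h : Fn K} (hh : h ∈ sym2 U) {w : K}
    (hw : ∀ f ∈ U, f w = 0) (z : K) : h (z + w) = h z := by
  induction hh using Submodule.span_induction with
  | mem x hx =>
    obtain ⟨f, hf, g, hg, rfl⟩ := hx
    simp [hw f hf, hw g hg]
  | zero => rfl
  | add x y _ _ hx hy => simp [hx, hy]
  | smul a x _ hx => simp [hx]

/-- If `U` has few elements compared to `K` then no nonzero `Tr (c z^3)` lies in `sym2 U`. -/
lemma sym2_inter (U : AddSubgroup (Lin K)) (s : Finset K) (hs : 4 < s.card)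
    (hU : ∀ w ∈ s, ∀ f ∈ U, f w = 0) {h : Fn K} (hh : h ∈ sym2 U) (hQ : h ∈ Q K) : h = 0 := by
  obtain ⟨c, rfl⟩ := hQ
  by_cases hc : c = 0
  · simp [hc]
  exfalso
  have hle := radical_card hc s ?_
  · omega
  intro w hw z
  have h1 := sym2_periodic U hh (hU w hw) z
  have h2 := sym2_periodic U hh (hU w hw) 0
  simp only [cub, LinearMap.coe_mk, AddHom.coe_mk] at h1 h2
  have h3 : c * (z + w) ^ 3 = c * z ^ 3 + c * (z ^ 2 * w + z * w ^ 2) + c * w ^ 3 := by
    have : (z + w) ^ 3 = z ^ 3 + (z ^ 2 * w + z * w ^ 2) + w ^ 3 + 2 * (z ^ 2 * w + z * w ^ 2) := by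
      ring
    rw [this, two_zero]
    ring
  rw [h3, map_add, map_add] at h1
  simp only [zero_add, ne_eq, OfNat.ofNat_ne_zero, not_false_eq_true, zero_pow, mul_zero,
    map_zero] at h2
  rw [h2, add_zero] at h1
  simpa using h1


/-- Separation: the subring of elements with first component in a small `U` embeds in a power
of the four element ring. -/
lemma separation (U : AddSubgroup (Lin K)) (s : Finset K) (hs : 4 < s.card)
    (hU : ∀ w ∈ s, ∀ f ∈ U, f w = 0) (b : subU (m := mulQ K) U) (hb : b ≠ 0) :
    ∃ φ : subU (m := mulQ K) U →ₙ+* R4, φ b ≠ 0 := by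
  classical
  -- general construction of homomorphisms
  have build : ∀ (z0 : K) (lam : (Fn K ⧸ Q K) →ₗ[ZMod 2] ZMod 2),
      (∀ f ∈ U, ∀ g ∈ U, lam ((Q K).mkQ (prod K f g)) = f z0 * g z0) →
      ∃ φ : subU (m := mulQ K) U →ₙ+* R4, ∀ a, φ a = (((a : Obs K).1 z0, lam (a : Obs K).2) : R4) := by
    intro z0 lam hlam
    refine ⟨{ toFun := fun a => (((a : Obs K).1 z0, lam (a : Obs K).2) : R4)
              map_mul' := ?_
              map_zero' := ?_
              map_add' := ?_ }, fun a => rfl⟩
    · intro a a'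
      apply nil_ext
      · rfl
      · exact hlam _ a.2 _ a'.2
    · apply nil_ext
      · rfl
      · exact map_zero lam
    · intro a a'
      apply nil_ext
      · rfl
      · exact map_add lam _ _
  by_cases hf : (b : Obs K).1 = 0
  · have hz : (b : Obs K).2 ≠ 0 := by
      intro h
      apply hb
      apply Subtype.ext
      exact nil_ext hf h
    by_cases hmem : (b : Obs K).2 ∈ (sym2 U).map (Q K).mkQ
    · obtain ⟨h, hh, hhb⟩ := hmem
      have hne : h ≠ 0 := by
        rintro rfl
        apply hz
        rw [← hhb, map_zero]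
      obtain ⟨z0, hz0⟩ := Function.ne_iff.1 hne
      -- the restriction of the quotient map to `sym2 U` is injective
      have hinj : LinearMap.ker ((Q K).mkQ ∘ₗ (sym2 U).subtype) = ⊥ := by
        rw [LinearMap.ker_eq_bot']
        intro x hx
        have hxQ : (x : Fn K) ∈ Q K := by
          simpa using hx
        exact Subtype.ext (sym2_inter U s hs hU x.2 hxQ)
      obtain ⟨g, hg⟩ := LinearMap.exists_leftInverse_of_injective _ hinj
      let ev : sym2 U →ₗ[ZMod 2] ZMod 2 := (LinearMap.proj z0) ∘ₗ (sym2 U).subtype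
      have hval : ∀ x : sym2 U, (ev ∘ₗ g) ((Q K).mkQ (x : Fn K)) = (x : Fn K) z0 := by
        intro x
        have := LinearMap.congr_fun hg x
        simp only [LinearMap.comp_apply, Submodule.subtype_apply, LinearMap.id_apply] at this
        simp only [LinearMap.comp_apply, this, ev, Submodule.subtype_apply, LinearMap.proj_apply]
      obtain ⟨φ, hφ⟩ := build z0 (ev ∘ₗ g) (by
        intro f hf g' hg'
        exact hval ⟨prod K f g', Submodule.subset_span ⟨f, hf, g', hg', rfl⟩⟩)
      refine ⟨φ, ?_⟩
      rw [hφ]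
      intro h0
      apply hz0
      have h2 : (ev ∘ₗ g) (b : Obs K).2 = 0 := congrArg Prod.snd h0
      rw [← hhb, hval ⟨h, hh⟩] at h2
      exact h2
    · obtain ⟨lam, hlam, hker⟩ := Submodule.exists_le_ker_of_notMem hmem
      obtain ⟨φ, hφ⟩ := build 0 lam (by
        intro f hf g' hg'
        rw [map_zero, zero_mul]
        exact hker ⟨prod K f g', Submodule.subset_span ⟨f, hf, g', hg', rfl⟩, rfl⟩)
      refine ⟨φ, ?_⟩
      rw [hφ]
      intro h0
      exact hlam (congrArg Prod.snd h0)
  · obtain ⟨z0, hz0⟩ : ∃ z0, (b : Obs K).1 z0 ≠ 0 := by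
      by_contra hcon
      push Not at hcon
      exact hf (LinearMap.ext hcon)
    -- the restriction of the quotient map to `sym2 U` is injective
    have hinj : LinearMap.ker ((Q K).mkQ ∘ₗ (sym2 U).subtype) = ⊥ := by
      rw [LinearMap.ker_eq_bot']
      intro x hx
      have hxQ : (x : Fn K) ∈ Q K := by
        simpa using hx
      exact Subtype.ext (sym2_inter U s hs hU x.2 hxQ)
    obtain ⟨g, hg⟩ := LinearMap.exists_leftInverse_of_injective _ hinj
    let ev : sym2 U →ₗ[ZMod 2] ZMod 2 := (LinearMap.proj z0) ∘ₗ (sym2 U).subtype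
    have hval : ∀ x : sym2 U, (ev ∘ₗ g) ((Q K).mkQ (x : Fn K)) = (x : Fn K) z0 := by
      intro x
      have := LinearMap.congr_fun hg x
      simp only [LinearMap.comp_apply, Submodule.subtype_apply, LinearMap.id_apply] at this
      simp only [LinearMap.comp_apply, this, ev, Submodule.subtype_apply, LinearMap.proj_apply]
    obtain ⟨φ, hφ⟩ := build z0 (ev ∘ₗ g) (by
      intro f hf g' hg'
      exact hval ⟨prod K f g', Submodule.subset_span ⟨f, hf, g', hg', rfl⟩⟩)
    refine ⟨φ, ?_⟩
    rw [hφ]
    intro h0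
    exact hz0 (congrArg Prod.fst h0)

/-- Every form `Tr (c z^3)` is a sum of products of two linear functionals. -/
lemma cub_mem_sym2 (c : K) : cub K c ∈ sym2 (⊤ : AddSubgroup (Lin K)) := by
  have : FiniteDimensional (ZMod 2) K := Module.Finite.of_finite
  let b := Module.finBasis (ZMod 2) K
  have h : cub K c = ∑ i, prod K (b.coord i)
      ((Algebra.trace (ZMod 2) K) ∘ₗ (LinearMap.mulLeft (ZMod 2) (c * b i)) ∘ₗ (sq K)) := by
    funext z
    rw [Finset.sum_apply]
    simp only [prod_apply, LinearMap.comp_apply, LinearMap.mulLeft_apply, sq_apply,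
      Module.Basis.coord_apply]
    simp only [cub, LinearMap.coe_mk, AddHom.coe_mk]
    have hz : c * z ^ 3 = ∑ i, (b.repr z i) • (c * b i * z ^ 2) := by
      have h1 : c * z ^ 3 = (∑ i, (b.repr z i) • b i) * (c * z ^ 2) := by
        rw [b.sum_repr]
        ring
      rw [h1, Finset.sum_mul]
      refine Finset.sum_congr rfl fun i _ => ?_
      rw [smul_mul_assoc]
      congr 1
      ring
    rw [hz, map_sum]
    refine Finset.sum_congr rfl fun i _ => ?_
    rw [map_smul, smul_eq_mul]
  rw [h]
  refine Submodule.sum_mem _ fun i _ => Submodule.subset_span ⟨_, trivial, _, trivial, rfl⟩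

/-- Every homomorphism from the obstruction ring to the four element ring kills all products. -/
lemma hom_kills (η : Obs K → R4) (hadd : ∀ a b, η (a + b) = η a + η b)
    (hmul : ∀ a b, η (a * b) = η a * η b) (f g : Lin K) :
    η (nmk (mulQ K) 0 (mulQ K f g)) = 0 := by
  have : FiniteDimensional (ZMod 2) K := Module.Finite.of_finite
  -- the functional on `Lin K`
  let Φ0 : Lin K →+ ZMod 2 := AddMonoidHom.mk' (fun f => (η (nmk (mulQ K) f 0)).1) (by
    intro f f'
    rw [nmk_add_left, hadd]
    rfl)
  let Φ : Module.Dual (ZMod 2) (Module.Dual (ZMod 2) K) := Φ0.toZModLinearMap 2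
  let z0 : K := (Module.evalEquiv (ZMod 2) K).symm Φ
  have hz0 : ∀ f : Lin K, (η (nmk (mulQ K) f 0)).1 = f z0 := by
    intro f
    have h1 : Module.evalEquiv (ZMod 2) K z0 = Φ := LinearEquiv.apply_symm_apply _ _
    have h2 := LinearMap.congr_fun h1 f
    rw [Module.evalEquiv_apply, Module.Dual.eval_apply] at h2
    exact h2.symm
  -- the functional on `Fn K`
  let Λ0 : (Fn K ⧸ Q K) →+ ZMod 2 := AddMonoidHom.mk' (fun z => (η (nmk (mulQ K) 0 z)).2) (by
    intro z z'
    rw [nmk_add_right, hadd]
    rfl)
  let Λ : (Fn K ⧸ Q K) →ₗ[ZMod 2] ZMod 2 := Λ0.toZModLinearMap 2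
  have hprod : ∀ f g : Lin K, Λ ((Q K).mkQ (prod K f g)) = f z0 * g z0 := by
    intro f g
    change (η (nmk (mulQ K) 0 (mulQ K f g))).2 = _
    rw [nmk_mul, hmul, nil_mul_snd, hz0, hz0]
    rfl
  have hsym : ∀ h ∈ sym2 (⊤ : AddSubgroup (Lin K)), Λ ((Q K).mkQ h) = h z0 := by
    intro h hh
    induction hh using Submodule.span_induction with
    | mem x hx =>
      obtain ⟨f, _, g, _, rfl⟩ := hx
      rw [hprod, prod_apply]
    | zero => simp
    | add x y _ _ hx hy => rw [map_add, map_add, hx, hy]; rfl
    | smul a x _ hx => rw [map_smul, map_smul, hx]; rfl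
  have hz03 : z0 ^ 3 = 0 := by
    apply tr_nondeg K
    intro c
    have h1 := hsym _ (cub_mem_sym2 c)
    have h2 : (Q K).mkQ (cub K c) = 0 := by
      rw [Submodule.mkQ_apply, Submodule.Quotient.mk_eq_zero]
      exact ⟨c, rfl⟩
    rw [h2, map_zero] at h1
    exact h1.symm
  have hz00 : z0 = 0 := by
    simpa using hz03
  rw [nmk_mul, hmul]
  apply nil_ext
  · rfl
  · rw [nil_mul_snd, hz0, hz0, hz00]
    simp

end Field

/-! ### The diagram quasi-identity -/

/-- For a finite ring `B` and `c ≠ 0` in `B` killed by every homomorphism to `A` there is a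
quasi-identity true in `A` and false in `B`. -/
lemma exists_separating {A B : Type} [NonUnitalNonAssocRing A] [NonUnitalNonAssocRing B]
    [Finite B] (c : B) (hc : c ≠ 0)
    (h : ∀ η : B → A, (∀ a b, η (a + b) = η a + η b) → (∀ a b, η (a * b) = η a * η b) →
      η c = 0) : ∃ q : QuasiIdentity, q.HoldsIn A ∧ ¬ q.HoldsIn B := by
  classical
  have : Fintype B := Fintype.ofFinite B
  let e := Fintype.equivFin B
  let x : B → RingTerm := fun b => RingTerm.var (e b : ℕ)
  let L : List (RingTerm × RingTerm) :=
    (Finset.univ : Finset (B × B)).toList.map (fun ab => (RingTerm.add (x ab.1) (x ab.2),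
      x (ab.1 + ab.2))) ++
    (Finset.univ : Finset (B × B)).toList.map (fun ab => (RingTerm.mul (x ab.1) (x ab.2),
      x (ab.1 * ab.2)))
  refine ⟨⟨L, (x c, RingTerm.zero)⟩, ?_, ?_⟩
  · intro v hv
    apply h (fun b => v (e b : ℕ))
    · intro a b
      have := hv (RingTerm.add (x a) (x b), x (a + b)) (by
        simp only [L, List.mem_append, List.mem_map]
        exact Or.inl ⟨(a, b), by simp, rfl⟩)
      simpa [RingTerm.eval, x] using this.symm
    · intro a b
      have := hv (RingTerm.mul (x a) (x b), x (a * b)) (by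
        simp only [L, List.mem_append, List.mem_map]
        exact Or.inr ⟨(a, b), by simp, rfl⟩)
      simpa [RingTerm.eval, x] using this.symm
  · intro hB
    apply hc
    let v : ℕ → B := fun i => if hi : i < Fintype.card B then e.symm ⟨i, hi⟩ else 0
    have hve : ∀ b : B, v (e b : ℕ) = b := by
      intro b
      simp [v]
    have := hB v (by
      intro p hp
      simp only [L, List.mem_append, List.mem_map] at hp
      rcases hp with ⟨ab, _, rfl⟩ | ⟨ab, _, rfl⟩
      · simp [RingTerm.eval, x, hve]
      · simp [RingTerm.eval, x, hve])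
    simpa [RingTerm.eval, x, hve] using this

/-- For every `k` there is a finite ring in which all quasi-identities in `k` variables true in
`R4` hold, but which does not satisfy all quasi-identities true in `R4`. -/
lemma obstruction (k : ℕ) : ∃ (B : Type) (_ : NonUnitalNonAssocRing B),
    (∀ q : QuasiIdentity, ((∀ e ∈ q.hyps, e.1.bound ≤ k ∧ e.2.bound ≤ k) ∧
      q.concl.1.bound ≤ k ∧ q.concl.2.bound ≤ k) → q.HoldsIn R4 → q.HoldsIn B) ∧
    ∃ q : QuasiIdentity, q.HoldsIn R4 ∧ ¬ q.HoldsIn B := by
  classical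
  have : Fact (Nat.Prime 2) := ⟨Nat.prime_two⟩
  let K := GaloisField 2 (k + 4)
  have hfin : Finite K := by
    apply Nat.finite_of_card_ne_zero
    rw [GaloisField.card 2 (k + 4) (by omega)]
    positivity
  have hcard : Nat.card K = 2 ^ (k + 4) := GaloisField.card 2 (k + 4) (by omega)
  have hfd : FiniteDimensional (ZMod 2) K := Module.Finite.of_finite
  have : Fintype K := Fintype.ofFinite K
  -- common zeros of few functionals
  have hcommon : ∀ (j : ℕ) (F : Fin j → Lin K), j ≤ k + 1 →
      ∃ s : Finset K, 4 < s.card ∧ ∀ w ∈ s, ∀ f ∈ AddSubgroup.closure (Set.range F), f w = 0 := by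
    intro j F hj
    let T : K →ₗ[ZMod 2] (Fin j → ZMod 2) := LinearMap.pi F
    have hrank := LinearMap.finrank_range_add_finrank_ker T
    have h1 : Module.finrank (ZMod 2) (LinearMap.range T) ≤ j := by
      refine le_trans (Submodule.finrank_le _) ?_
      simp
    have h2 : Module.finrank (ZMod 2) K = k + 4 := GaloisField.finrank 2 (by omega)
    have h3 : 3 ≤ Module.finrank (ZMod 2) (LinearMap.ker T) := by omega
    have h4 : Nat.card (LinearMap.ker T) = 2 ^ Module.finrank (ZMod 2) (LinearMap.ker T) := by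
      have := Module.natCard_eq_pow_finrank (K := ZMod 2) (V := LinearMap.ker T)
      simpa [Nat.card_zmod] using this
    refine ⟨(LinearMap.ker T : Set K).toFinset, ?_, ?_⟩
    · have h5 : (LinearMap.ker T : Set K).toFinset.card = Nat.card (LinearMap.ker T) := by
        rw [Set.toFinset_card, Nat.card_eq_fintype_card]
        rfl
      rw [h5, h4]
      calc 4 < 2 ^ 3 := by norm_num
        _ ≤ 2 ^ Module.finrank (ZMod 2) (LinearMap.ker T) := Nat.pow_le_pow_right (by norm_num) h3
    · intro w hw f hf
      have hw' : T w = 0 := by simpa using hw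
      have hF : ∀ i, F i w = 0 := fun i => congrFun hw' i
      induction hf using AddSubgroup.closure_induction with
      | mem x hx =>
        obtain ⟨i, rfl⟩ := hx
        exact hF i
      | zero => rfl
      | add x y _ _ hx hy => simp [hx, hy]
      | neg x _ hx => simp [hx]
  refine ⟨Obs K, inferInstance, ?_, ?_⟩
  · intro q hq hR
    refine holdsIn_of_separated (k := k) ?_ q hq hR
    intro v hv
    let F : Fin k → Lin K := fun i => (v i).1
    obtain ⟨s, hs, hs'⟩ := hcommon k F (by omega)
    refine ⟨subU (AddSubgroup.closure (Set.range F)), ?_, ?_⟩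
    · intro i
      change (v i).1 ∈ AddSubgroup.closure (Set.range F)
      by_cases hi : i < k
      · exact AddSubgroup.subset_closure ⟨⟨i, hi⟩, rfl⟩
      · rw [hv i (not_lt.1 hi)]
        exact AddSubgroup.zero_mem _
    · intro b hb
      exact separation _ s hs hs' b hb
  · -- a functional which is not zero
    obtain ⟨f, hf⟩ : ∃ f : Lin K, f ≠ 0 := exists_ne 0
    have hne : mulQ K f f ≠ 0 := by
      obtain ⟨s, hs, hs'⟩ := hcommon 1 (fun _ => f) (by omega)
      intro h0
      rw [mulQ_apply, Submodule.mkQ_apply, Submodule.Quotient.mk_eq_zero] at h0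
      have hmem : prod K f f ∈ sym2 (AddSubgroup.closure (Set.range (fun _ : Fin 1 => f))) := by
        have : f ∈ AddSubgroup.closure (Set.range (fun _ : Fin 1 => f)) :=
          AddSubgroup.subset_closure ⟨0, rfl⟩
        exact Submodule.subset_span ⟨f, this, f, this, rfl⟩
      have h1 := sym2_inter _ s hs hs' hmem h0
      apply hf
      ext z
      have h2 := congrFun h1 z
      simpa using h2
    have hfB : Finite (Obs K) := by
      have h1 : Finite (Lin K) := DFunLike.finite _
      have h2 : Finite (Fn K ⧸ Q K) := inferInstance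
      exact inferInstanceAs (Finite (Lin K × (Fn K ⧸ Q K)))
    refine exists_separating (nmk (mulQ K) 0 (mulQ K f f)) ?_ ?_
    · intro h0
      exact hne (congrArg Prod.snd h0)
    · intro η hadd hmul
      exact hom_kills η hadd hmul f f

/-- The four element ring has no finite basis of quasi-identities. -/
lemma r4_noBasis : ¬ HasFiniteQuasiIdentityBasis R4 := by
  rintro ⟨S, hfin, hS⟩
  obtain ⟨k, hk⟩ := exists_bound_set hfin
  obtain ⟨B, instB, h1, q, hq, hqB⟩ := obstruction k
  exact hqB (hS.2 q hq B (fun s hs => h1 s (hk s hs) (hS.1 s hs)))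

/-- There is a finite ring (with four elements) which is associative and commutative, hence
alternative and Jordan, and which has no finite basis of quasi-identities. -/
theorem result : ∃ (A : Type) (_ : NonUnitalNonAssocRing A),
    Nat.card A = 4 ∧ (∀ x y z : A, (x * y) * z = x * (y * z)) ∧ IsAlternativeRing A ∧
      IsJordanRing A ∧ ¬ HasFiniteQuasiIdentityBasis A := by
  refine ⟨R4, inferInstance, ?_, ?_, ⟨?_, ?_⟩, ⟨?_, ?_⟩, r4_noBasis⟩
  · change Nat.card (ZMod 2 × ZMod 2) = 4
    simp
  · intro x y z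
    apply nil_ext
    · rfl
    · simp
  · intro x y
    apply nil_ext
    · rfl
    · simp
  · intro x y
    apply nil_ext
    · rfl
    · simp
  · intro x y
    apply nil_ext
    · rfl
    · simp [mul_comm]
  · intro x y
    apply nil_ext
    · rfl
    · simp

end Pool.Agent.Results.MP_db5ef1_al.NoFiniteQuasiIdentityBasis
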